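import Mathlib
import Pool.Agent.H286R4.LefHilb
import Pool.Agent.H286R5.ZakX

/-!
Project H286-ZAK: the threefold `XZ` has dimension three.
-/

set_option autoImplicit false

namespace Pool.Agent.H343R3.Zak

open Module Filter Topology
open Pool.Agent.H286R4 Pool.Agent.H286R5

variable {σ : Type}

/-- lower bound for the Hilbert function from forms that pull back to distinct monomials times a
fixed nonzero polynomial -/
theorem hilb_lowerW [Finite σ] {m : ℕ} (D : Set (PS σ)) (t : ℕ) (κ : Type) [Fintype κ]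
    (M : κ → MvPolynomial σ ℂ) (hM : ∀ k, (M k).IsHomogeneous t) (γ : (Fin m → ℂ) → σ → ℂ)
    (W : MvPolynomial (Fin m) ℂ) (hW : W ≠ 0) (e : κ → Fin m → ℕ) (he : Function.Injective e)
    (hMe : ∀ k u, MvPolynomial.eval (γ u) (M k) = MvPolynomial.eval u W * ∏ j, u j ^ e k j)
    (hD : ∀ F : MvPolynomial σ ℂ, F.IsHomogeneous t → (∀ p ∈ D, MvPolynomial.eval p.rep F = 0) →
      ∀ u, MvPolynomial.eval (γ u) F = 0) : Fintype.card κ ≤ hilb D t := by
  classical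
  have hfin := finite_forms σ t
  let f : (κ → ℂ) →ₗ[ℂ] MvPolynomial.homogeneousSubmodule σ ℂ t :=
    Fintype.linearCombination ℂ (fun k => (⟨M k, (MvPolynomial.mem_homogeneousSubmodule _ _).mpr
      (hM k)⟩ : MvPolynomial.homogeneousSubmodule σ ℂ t))
  have h1 := le_quot (vanForms D t) f (fun a ha => by
    have hfa : (f a).1 = ∑ k, MvPolynomial.C (a k) * M k := by
      rw [Fintype.linearCombination_apply, Submodule.coe_sum]
      refine Finset.sum_congr rfl fun k _ => ?_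
      rw [Submodule.coe_smul, MvPolynomial.smul_eq_C_mul]
    have h2 := hD (f a).1 ((MvPolynomial.mem_homogeneousSubmodule _ _).mp (f a).2) ha
    have h3' : W * (∑ k, MvPolynomial.monomial (Finsupp.equivFunOnFinite.symm (e k)) (a k) :
        MvPolynomial (Fin m) ℂ) = 0 := by
      refine MvPolynomial.funext fun u => ?_
      have h4 := h2 u
      rw [hfa, map_sum] at h4
      rw [map_mul, map_sum, map_zero, ← h4, Finset.mul_sum]
      refine Finset.sum_congr rfl fun k _ => ?_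
      rw [map_mul, MvPolynomial.eval_C, hMe, MvPolynomial.eval_monomial,
        Finsupp.prod_fintype _ _ (fun i => pow_zero _)]
      have : ∏ i, u i ^ (Finsupp.equivFunOnFinite.symm (e k)) i = ∏ j, u j ^ e k j := rfl
      rw [this]
      ring
    have h3 : (∑ k, MvPolynomial.monomial (Finsupp.equivFunOnFinite.symm (e k)) (a k) :
        MvPolynomial (Fin m) ℂ) = 0 := (mul_eq_zero.mp h3').resolve_left hW
    funext k
    have h5 := congrArg (MvPolynomial.coeff (Finsupp.equivFunOnFinite.symm (e k))) h3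
    rw [MvPolynomial.coeff_sum, MvPolynomial.coeff_zero, Finset.sum_eq_single k] at h5
    · rw [MvPolynomial.coeff_monomial, if_pos rfl] at h5
      exact h5
    · intro k' _ hk'
      rw [MvPolynomial.coeff_monomial, if_neg]
      intro h6
      exact hk' (he (Finsupp.equivFunOnFinite.symm.injective h6))
    · intro h6
      exact absurd (Finset.mem_univ k) h6)
  rw [Module.finrank_fintype_fun_eq_card] at h1
  exact h1

theorem dadd {ι : Type} {p q : MvPolynomial ι ℂ} {n : ℕ} (hp : p.totalDegree ≤ n)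
    (hq : q.totalDegree ≤ n) : (p + q).totalDegree ≤ n :=
  (MvPolynomial.totalDegree_add _ _).trans (max_le hp hq)

theorem dmul {ι : Type} {p q : MvPolynomial ι ℂ} {m n : ℕ} (k : ℕ) (hk : m + n ≤ k)
    (hp : p.totalDegree ≤ m) (hq : q.totalDegree ≤ n) : (p * q).totalDegree ≤ k :=
  (MvPolynomial.totalDegree_mul _ _).trans ((Nat.add_le_add hp hq).trans hk)

theorem dX {ι : Type} (i : ι) : (MvPolynomial.X i : MvPolynomial ι ℂ).totalDegree ≤ 1 := by
  rw [MvPolynomial.totalDegree_X]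

theorem dXp {ι : Type} (i : ι) (n : ℕ) :
    ((MvPolynomial.X i : MvPolynomial ι ℂ) ^ n).totalDegree ≤ n := by
  rw [MvPolynomial.totalDegree_X_pow]

theorem d1 {ι : Type} (n : ℕ) : (1 : MvPolynomial ι ℂ).totalDegree ≤ n := by
  rw [MvPolynomial.totalDegree_one]
  exact Nat.zero_le _

/-- the chart `b = x = 1` as polynomials -/
noncomputable def G3 : Fin 6 → MvPolynomial (Fin 3) ℂ :=
  ![(MvPolynomial.X 0 + 1) * (MvPolynomial.X 1 * MvPolynomial.X 2),
    (MvPolynomial.X 0 * (MvPolynomial.X 0 + 1)) * (MvPolynomial.X 1 * MvPolynomial.X 2),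
    MvPolynomial.X 0 * (MvPolynomial.X 1 + MvPolynomial.X 2 ^ 3),
    MvPolynomial.X 0 * (MvPolynomial.X 1 * MvPolynomial.X 2 ^ 2 + 1),
    MvPolynomial.X 0 * MvPolynomial.X 2,
    MvPolynomial.X 0 * MvPolynomial.X 2 ^ 2]

theorem G3_eval (u : Fin 3 → ℂ) :
    (fun a => MvPolynomial.eval u (G3 a)) = Psi (u 0) 1 1 (u 1) (u 2) := by
  funext a
  fin_cases a <;> simp [G3, Psi]

theorem G3_deg (a : Fin 6) : (G3 a).totalDegree ≤ 4 := by
  fin_cases a
  · exact dmul 4 (by norm_num) (dadd (dX 0) (d1 1)) (dmul 2 (by norm_num) (dX 1) (dX 2))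
  · exact dmul 4 (by norm_num) (dmul 2 (by norm_num) (dX 0) (dadd (dX 0) (d1 1)))
      (dmul 2 (by norm_num) (dX 1) (dX 2))
  · exact dmul 4 (by norm_num) (dX 0) (dadd ((dX 1).trans (by norm_num : 1 ≤ 3)) (dXp 2 3))
  · exact dmul 4 (by norm_num) (dX 0) (dadd (dmul 3 (by norm_num) (dX 1) (dXp 2 2)) (d1 3))
  · exact dmul 4 (by norm_num) (dX 0) (dX 2)
  · exact dmul 4 (by norm_num) (dX 0) (dXp 2 2)

/-- the full parametrisation as polynomials -/
noncomputable def G5 : Fin 6 → MvPolynomial (Fin 5) ℂ :=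
  ![MvPolynomial.X 1 * (MvPolynomial.X 0 + MvPolynomial.X 1) *
      (MvPolynomial.X 2 * MvPolynomial.X 3 * MvPolynomial.X 4),
    MvPolynomial.X 0 * (MvPolynomial.X 0 + MvPolynomial.X 1) *
      (MvPolynomial.X 2 * MvPolynomial.X 3 * MvPolynomial.X 4),
    MvPolynomial.X 0 * MvPolynomial.X 1 *
      (MvPolynomial.X 2 ^ 2 * MvPolynomial.X 3 + MvPolynomial.X 4 ^ 3),
    MvPolynomial.X 0 * MvPolynomial.X 1 *
      (MvPolynomial.X 3 * MvPolynomial.X 4 ^ 2 + MvPolynomial.X 2 ^ 3),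
    MvPolynomial.X 0 * MvPolynomial.X 1 * (MvPolynomial.X 2 ^ 2 * MvPolynomial.X 4),
    MvPolynomial.X 0 * MvPolynomial.X 1 * (MvPolynomial.X 2 * MvPolynomial.X 4 ^ 2)]

theorem G5_eval (u : Fin 5 → ℂ) :
    (fun a => MvPolynomial.eval u (G5 a)) = Psi (u 0) (u 1) (u 2) (u 3) (u 4) := by
  funext a
  fin_cases a <;> simp [G5, Psi]

theorem Psi_scale (a b x y z : ℂ) (hb : b ≠ 0) (hx : x ≠ 0) :
    Psi a b x y z = (b ^ 2 * x ^ 3) • Psi (a / b) 1 1 (y / x) (z / x) := by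
  funext i
  fin_cases i <;> simp [Psi] <;> field_simp

theorem van_of_chart {F : MvPolynomial (Fin 6) ℂ} {t : ℕ} (hF : F.IsHomogeneous t)
    (h : ∀ u : Fin 3 → ℂ, MvPolynomial.eval (fun a => MvPolynomial.eval u (G3 a)) F = 0) :
    Van F := by
  intro a b x y z
  have h1 := dense_vanish G5 F (MvPolynomial.X 1 * MvPolynomial.X 2)
    (mul_ne_zero (MvPolynomial.X_ne_zero _) (MvPolynomial.X_ne_zero _)) (by
      intro u hu
      rw [map_mul, MvPolynomial.eval_X, MvPolynomial.eval_X] at hu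
      rw [G5_eval, Psi_scale _ _ _ _ _ (left_ne_zero_of_mul hu) (right_ne_zero_of_mul hu),
        hom_eval hF]
      have h2 := h ![u 0 / u 1, u 3 / u 2, u 4 / u 2]
      rw [G3_eval] at h2
      have h3 : MvPolynomial.eval (Psi (u 0 / u 1) 1 1 (u 3 / u 2) (u 4 / u 2)) F = 0 := h2
      rw [h3, mul_zero]) ![a, b, x, y, z]
  rw [G5_eval] at h1
  exact h1

theorem XZ_upper (t : ℕ) : hilb XZ t ≤ (4 * t + 1) ^ 3 :=
  hilb_upper G3 4 G3_deg XZ t (fun F hF h _ hp => hp t F hF (van_of_chart hF h))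

theorem mk_mem_XZ (a b x y z : ℂ) (h : Psi a b x y z ≠ 0) :
    Projectivization.mk ℂ (Psi a b x y z) h ∈ XZ :=
  fun _ _ hm hV => (eval_rep_mk hm _ h).mpr (hV a b x y z)

theorem van_of_XZ {F : MvPolynomial (Fin 6) ℂ} {t : ℕ} (hF : F.IsHomogeneous t)
    (h : ∀ p ∈ XZ, MvPolynomial.eval p.rep F = 0) : Van F := by
  have h1 : ∀ a b x y z, Psi a b x y z ≠ 0 → MvPolynomial.eval (Psi a b x y z) F = 0 :=
    fun a b x y z hne => (eval_rep_mk hF _ hne).mp (h _ (mk_mem_XZ a b x y z hne))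
  intro a b x y z
  by_cases hne : Psi a b x y z = 0
  · have h2 : Psi 1 1 1 1 1 ≠ 0 := by
      intro h3
      have := congrFun h3 4
      simp [Psi] at this
    have h4 : Psi a b x y z = (0 : ℂ) • Psi 1 1 1 1 1 := by
      rw [hne, zero_smul]
    rw [h4, hom_eval hF, h1 _ _ _ _ _ h2, mul_zero]
  · exact h1 _ _ _ _ _ hne

theorem mono_id (p s q r : ℂ) (hs : s = p + 1) (n b d g : ℕ) :
    (p * s * (q * r)) ^ b * (s * (q * r)) ^ n * (p * s * (q * r) + s * (q * r)) ^ (d + g) *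
      (p * r) ^ d * (p * r ^ 2) ^ g =
    s ^ (n + 2 * (d + g) + b) * (p ^ (b + (d + g)) * q ^ (n + (d + g) + b) *
      r ^ (n + 2 * (d + g) + b + g)) := by
  have h : p * s * (q * r) + s * (q * r) = s ^ 2 * (q * r) := by
    rw [hs]
    ring
  rw [h]
  ring

/-- the forms used for the lower bound -/
noncomputable def Mf (t : ℕ) (k : Fin 3 → Fin (t / 5 + 1)) : MvPolynomial (Fin 6) ℂ :=
  MvPolynomial.X 1 ^ (k 1 : ℕ) *
    MvPolynomial.X 0 ^ (t - 2 * (t / 5 + (k 0 : ℕ)) - (k 1 : ℕ)) *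
    (MvPolynomial.X 1 + MvPolynomial.X 0) ^ (t / 5 + (k 0 : ℕ)) *
    MvPolynomial.X 4 ^ (t / 5 + (k 0 : ℕ) - (k 2 : ℕ)) * MvPolynomial.X 5 ^ (k 2 : ℕ)

theorem Mf_hom (t : ℕ) (k : Fin 3 → Fin (t / 5 + 1)) : (Mf t k).IsHomogeneous t := by
  have h := ((((MvPolynomial.isHomogeneous_X_pow (R := ℂ) (1 : Fin 6) (k 1 : ℕ)).mul
    (MvPolynomial.isHomogeneous_X_pow (R := ℂ) (0 : Fin 6)
      (t - 2 * (t / 5 + (k 0 : ℕ)) - (k 1 : ℕ)))).mul
    (((MvPolynomial.isHomogeneous_X ℂ (1 : Fin 6)).add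
      (MvPolynomial.isHomogeneous_X ℂ (0 : Fin 6))).pow (t / 5 + (k 0 : ℕ)))).mul
    (MvPolynomial.isHomogeneous_X_pow (R := ℂ) (4 : Fin 6)
      (t / 5 + (k 0 : ℕ) - (k 2 : ℕ)))).mul
    (MvPolynomial.isHomogeneous_X_pow (R := ℂ) (5 : Fin 6) (k 2 : ℕ))
  have h0 := (k 0).2
  have h1 := (k 1).2
  have h2 := (k 2).2
  have h3 : (k 1 : ℕ) + (t - 2 * (t / 5 + (k 0 : ℕ)) - (k 1 : ℕ)) + 1 * (t / 5 + (k 0 : ℕ)) +
      (t / 5 + (k 0 : ℕ) - (k 2 : ℕ)) + (k 2 : ℕ) = t := by omega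
  rw [h3] at h
  exact h

theorem XZ_lower (t : ℕ) : (t / 5 + 1) ^ 3 ≤ hilb XZ t := by
  have key := hilb_lowerW (m := 3) XZ t (Fin 3 → Fin (t / 5 + 1)) (Mf t) (Mf_hom t)
    (fun u => Psi (u 0) 1 1 (u 1) (u 2)) ((MvPolynomial.X 0 + 1) ^ t)
    (pow_ne_zero _ (fun h => by
      have := congrArg (MvPolynomial.eval (fun _ => (0 : ℂ))) h
      simp at this))
    (fun k => ![(k 1 : ℕ) + (t / 5 + (k 0 : ℕ)), t - (t / 5 + (k 0 : ℕ)), t + (k 2 : ℕ)])
    (fun k k' h => by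
      have h0 : (k 1 : ℕ) + (t / 5 + (k 0 : ℕ)) = (k' 1 : ℕ) + (t / 5 + (k' 0 : ℕ)) :=
        congrFun h 0
      have h1 : t - (t / 5 + (k 0 : ℕ)) = t - (t / 5 + (k' 0 : ℕ)) := congrFun h 1
      have h2 : t + (k 2 : ℕ) = t + (k' 2 : ℕ) := congrFun h 2
      have l0 := (k 0).2
      have l0' := (k' 0).2
      funext j
      apply Fin.ext
      fin_cases j
      · show (k 0 : ℕ) = (k' 0 : ℕ)
        omega
      · show (k 1 : ℕ) = (k' 1 : ℕ)
        omega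
      · show (k 2 : ℕ) = (k' 2 : ℕ)
        omega)
    (fun k u => by
      have l0 := (k 0).2
      have l1 := (k 1).2
      have l2 := (k 2).2
      obtain ⟨n, hn⟩ : ∃ n, n = t - 2 * (t / 5 + (k 0 : ℕ)) - (k 1 : ℕ) := ⟨_, rfl⟩
      obtain ⟨d, hd⟩ : ∃ d, d = t / 5 + (k 0 : ℕ) - (k 2 : ℕ) := ⟨_, rfl⟩
      have e1 : t / 5 + (k 0 : ℕ) = d + (k 2 : ℕ) := by omega
      have e2 : t = n + 2 * (d + (k 2 : ℕ)) + (k 1 : ℕ) := by omega
      have e3 : t - (d + (k 2 : ℕ)) = n + (d + (k 2 : ℕ)) + (k 1 : ℕ) := by omega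
      have key := mono_id (u 0) (u 0 + 1) (u 1) (u 2) rfl n (k 1 : ℕ) d (k 2 : ℕ)
      rw [← e2, ← e3] at key
      have a0 : Psi (u 0) 1 1 (u 1) (u 2) 0 = (u 0 + 1) * (u 1 * u 2) := by
        simp [Psi]
      have a1 : Psi (u 0) 1 1 (u 1) (u 2) 1 = u 0 * (u 0 + 1) * (u 1 * u 2) := by
        simp [Psi]
      have a4 : Psi (u 0) 1 1 (u 1) (u 2) 4 = u 0 * u 2 := by
        simp [Psi]
      have a5 : Psi (u 0) 1 1 (u 1) (u 2) 5 = u 0 * u 2 ^ 2 := by
        simp [Psi]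
      unfold Mf
      rw [← hd, ← hn, e1]
      simp only [map_mul, map_pow, map_add, MvPolynomial.eval_X, map_one, a0, a1, a4, a5]
      rw [key, Fin.prod_univ_three]
      rfl)
    (fun F hF h u => van_of_XZ hF h _ _ _ _ _)
  rwa [Fintype.card_fun, Fintype.card_fin, Fintype.card_fin] at key

theorem taskDim : TaskDim := by
  refine hasDim_of_bounds XZ 3 (1 / 125) 125 (by norm_num) ?_ ?_
  · intro t _
    have h1 : ((t / 5 + 1 : ℕ) : ℝ) ^ 3 ≤ hilb XZ t := by exact_mod_cast XZ_lower t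
    have h2 : (t : ℝ) / 5 ≤ ((t / 5 + 1 : ℕ) : ℝ) := by
      rw [div_le_iff₀ (by norm_num)]
      have : t ≤ (t / 5 + 1) * 5 := by omega
      exact_mod_cast this
    calc 1 / 125 * (t : ℝ) ^ 3 = ((t : ℝ) / 5) ^ 3 := by ring
      _ ≤ ((t / 5 + 1 : ℕ) : ℝ) ^ 3 := pow_le_pow_left₀ (by positivity) h2 3
      _ ≤ _ := h1
  · intro t ht
    have h1 : (hilb XZ t : ℝ) ≤ ((4 * t + 1 : ℕ) : ℝ) ^ 3 := by exact_mod_cast XZ_upper t
    have h2 : ((4 * t + 1 : ℕ) : ℝ) ≤ 5 * t := by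
      have : 4 * t + 1 ≤ 5 * t := by omega
      exact_mod_cast this
    calc (hilb XZ t : ℝ) ≤ ((4 * t + 1 : ℕ) : ℝ) ^ 3 := h1
      _ ≤ (5 * (t : ℝ)) ^ 3 := pow_le_pow_left₀ (by positivity) h2 3
      _ = 125 * (t : ℝ) ^ 3 := by ring

end Pool.Agent.H343R3.Zak
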